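import Mathlib
import Pool.Agent.Helper11.Can.Defs

/-!
# Galois descent of subspaces (pieces L15 and L16 of project CAN, MP_5f0950_ag)
-/

universe u v t

open Finset Matrix

namespace Pool.Agent.Helper11.Can

namespace L15

/-- a projection matrix onto a subspace -/
lemma exists_proj {K : Type*} [Field K] {k : ℕ} (S : Submodule K (Fin k → K)) :
    ∃ Q : Matrix (Fin k) (Fin k) K, (∀ x, Q.mulVec x ∈ S) ∧ ∀ x ∈ S, Q.mulVec x = x := by
  obtain ⟨g, hg⟩ := LinearMap.exists_leftInverse_of_injective S.subtype (by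
    rw [LinearMap.ker_eq_bot]
    exact S.injective_subtype)
  refine ⟨LinearMap.toMatrix' (S.subtype ∘ₗ g), fun x => ?_, fun x hx => ?_⟩
  · have : (LinearMap.toMatrix' (S.subtype ∘ₗ g)).mulVec x = (S.subtype ∘ₗ g) x := by
      rw [← Matrix.toLin'_apply, Matrix.toLin'_toMatrix']
    rw [this]
    exact (g x).2
  · have : (LinearMap.toMatrix' (S.subtype ∘ₗ g)).mulVec x = (S.subtype ∘ₗ g) x := by
      rw [← Matrix.toLin'_apply, Matrix.toLin'_toMatrix']
    rw [this]
    have h2 : g (S.subtype ⟨x, hx⟩) = ⟨x, hx⟩ := by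
      rw [← LinearMap.comp_apply, hg, LinearMap.id_apply]
    change ((g x : S) : Fin k → K) = x
    have h3 : g x = ⟨x, hx⟩ := h2
    rw [h3]

lemma proj_embV {K : Type*} [Field K] {κ : Type*} [Field κ] [Algebra K κ] {k : ℕ}
    (Q : Matrix (Fin k) (Fin k) K) (x : Fin k → K) :
    (Q.map (algebraMap K κ)).mulVec (embV κ x) = embV κ (Q.mulVec x) := by
  funext i
  exact (RingHom.map_mulVec (algebraMap K κ) Q x i).symm

lemma proj_mem {K : Type*} [Field K] {κ : Type*} [Field κ] [Algebra K κ] {k : ℕ}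
    (S : Submodule K (Fin k → K)) (Q : Matrix (Fin k) (Fin k) K) (hQ : ∀ x, Q.mulVec x ∈ S)
    (y : Fin k → κ) :
    (Q.map (algebraMap K κ)).mulVec y ∈
      Submodule.span κ (embV κ '' (S : Set (Fin k → K))) := by
  classical
  have h1 : y = ∑ j, y j • embV κ (Pi.single j (1 : K)) := by
    funext i
    rw [Finset.sum_apply, Finset.sum_eq_single i]
    · simp [embV]
    · intro b _ hb
      simp [embV, Pi.single_apply, Ne.symm hb]
    · intro h
      exact absurd (mem_univ i) h
  have h2 : (Q.map (algebraMap K κ)).mulVec y =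
      ∑ j, y j • embV κ (Q.mulVec (Pi.single j (1 : K))) := by
    conv_lhs => rw [h1]
    rw [Matrix.mulVec_sum]
    refine Finset.sum_congr rfl fun j _ => ?_
    rw [Matrix.mulVec_smul, proj_embV]
  rw [h2]
  exact Submodule.sum_mem _ fun j _ => Submodule.smul_mem _ _
    (Submodule.subset_span ⟨_, hQ _, rfl⟩)

lemma proj_fix {K : Type*} [Field K] {κ : Type*} [Field κ] [Algebra K κ] {k : ℕ}
    (S : Submodule K (Fin k → K)) (Q : Matrix (Fin k) (Fin k) K)
    (hQ : ∀ x ∈ S, Q.mulVec x = x) (y : Fin k → κ)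
    (hy : y ∈ Submodule.span κ (embV κ '' (S : Set (Fin k → K)))) :
    (Q.map (algebraMap K κ)).mulVec y = y := by
  induction hy using Submodule.span_induction with
  | mem x hx =>
    obtain ⟨s, hs, rfl⟩ := hx
    rw [proj_embV, hQ s hs]
  | zero => rw [Matrix.mulVec_zero]
  | add x z _ _ hx hz => rw [Matrix.mulVec_add, hx, hz]
  | smul a x _ hx => rw [Matrix.mulVec_smul, hx]

/-- a non-zero Galois stable subspace contains a non-zero rational vector -/
lemma exists_rational {Ω : Type u} [Field Ω] [CharZero Ω] {k : ℕ}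
    (F : Submodule (AlgebraicClosure Ω) (Fin k → AlgebraicClosure Ω)) (hF : F ≠ ⊥)
    (hst : ∀ τ : AlgebraicClosure Ω ≃ₐ[Ω] AlgebraicClosure Ω, ∀ x ∈ F, (fun i => τ (x i)) ∈ F) :
    ∃ x : Fin k → Ω, x ≠ 0 ∧ (fun i => algebraMap Ω (AlgebraicClosure Ω) (x i)) ∈ F := by
  classical
  have hex : ∃ N : ℕ, ∃ x ∈ F, x ≠ 0 ∧ #(univ.filter fun i => x i ≠ 0) = N := by
    obtain ⟨x, hx, hx0⟩ := F.ne_bot_iff.mp hF
    exact ⟨_, x, hx, hx0, rfl⟩
  obtain ⟨x, hx, hx0, hN⟩ := Nat.find_spec hex
  have hmin : ∀ y ∈ F, y ≠ 0 → #(univ.filter fun i => x i ≠ 0) ≤ #(univ.filter fun i => y i ≠ 0) := by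
    intro y hy hy0
    rw [hN]
    exact Nat.find_min' hex ⟨y, hy, hy0, rfl⟩
  obtain ⟨j, hj⟩ := Function.ne_iff.mp hx0
  rw [Pi.zero_apply] at hj
  set y : Fin k → AlgebraicClosure Ω := (x j)⁻¹ • x with hy
  have hyF : y ∈ F := F.smul_mem _ hx
  have hyj : y j = 1 := by
    rw [hy, Pi.smul_apply, smul_eq_mul, inv_mul_cancel₀ hj]
  have hysupp : (univ.filter fun i => y i ≠ 0) = univ.filter fun i => x i ≠ 0 := by
    ext i
    simp only [mem_filter, mem_univ, true_and, hy, Pi.smul_apply, smul_eq_mul]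
    constructor
    · exact fun h h' => h (by rw [h', mul_zero])
    · exact fun h => mul_ne_zero (inv_ne_zero hj) h
  have hfix : ∀ (τ : AlgebraicClosure Ω ≃ₐ[Ω] AlgebraicClosure Ω) (i : Fin k), τ (y i) = y i := by
    intro τ
    set z : Fin k → AlgebraicClosure Ω := (fun i => τ (y i)) - y with hz
    have hzF : z ∈ F := F.sub_mem (hst τ y hyF) hyF
    have hz0 : z = 0 := by
      by_contra hne
      have h1 := hmin z hzF hne
      have h2 : (univ.filter fun i => z i ≠ 0) ⊂ univ.filter fun i => x i ≠ 0 := by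
        rw [← hysupp, Finset.ssubset_iff_of_subset]
        · refine ⟨j, ?_, ?_⟩
          · simp [hyj]
          · simp [hz, hyj]
        · intro i hi
          simp only [mem_filter, mem_univ, true_and] at hi ⊢
          intro h0
          apply hi
          simp [hz, h0]
      exact absurd (card_lt_card h2) (not_lt.2 h1)
    intro i
    have := congrFun hz0 i
    rw [hz, Pi.sub_apply, Pi.zero_apply] at this
    exact sub_eq_zero.1 this
  have hrat : ∀ i, ∃ a : Ω, algebraMap Ω (AlgebraicClosure Ω) a = y i := by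
    intro i
    exact (InfiniteGalois.mem_range_algebraMap_iff_fixed (y i)).2 fun τ => hfix τ i
  choose a ha using hrat
  refine ⟨a, ?_, ?_⟩
  · intro h0
    have h1 := ha j
    rw [h0, Pi.zero_apply, map_zero, hyj] at h1
    exact zero_ne_one h1
  · have : (fun i => algebraMap Ω (AlgebraicClosure Ω) (a i)) = y := funext ha
    rw [this]
    exact hyF

end L15

/-- CAN-L15: Galois descent of subspaces -/
theorem span_rational {K : Type v} [Field K] [CharZero K] {k : ℕ}
    (F : Submodule (AlgebraicClosure K) (Fin k → AlgebraicClosure K))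
    (hst : ∀ τ : AlgebraicClosure K ≃ₐ[K] AlgebraicClosure K, ∀ x ∈ F, (fun i => τ (x i)) ∈ F) :
    Submodule.span (AlgebraicClosure K)
      (embV (AlgebraicClosure K) '' {x : Fin k → K | embV (AlgebraicClosure K) x ∈ F}) = F := by
  set κ := AlgebraicClosure K with hκ
  -- the rational vectors of `F`
  let S : Submodule K (Fin k → K) :=
    { carrier := {x | embV κ x ∈ F}
      add_mem' := fun {x y} hx hy => by
        have h : embV κ (x + y) = embV κ x + embV κ y := by
          funext i
          exact map_add (algebraMap K κ) _ _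
        rw [Set.mem_setOf_eq, h]
        exact F.add_mem hx hy
      zero_mem' := by
        have h : embV κ (0 : Fin k → K) = 0 := by
          funext i
          exact map_zero (algebraMap K κ)
        rw [Set.mem_setOf_eq, h]
        exact F.zero_mem
      smul_mem' := fun c x hx => by
        have h : embV κ (c • x) = algebraMap K κ c • embV κ x := by
          funext i
          exact map_mul (algebraMap K κ) _ _
        rw [Set.mem_setOf_eq, h]
        exact F.smul_mem _ hx }
  have hS : (S : Set (Fin k → K)) = {x : Fin k → K | embV κ x ∈ F} := rfl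
  rw [← hS]
  obtain ⟨Q, hQ1, hQ2⟩ := L15.exists_proj S
  set T : Matrix (Fin k) (Fin k) κ := Q.map (algebraMap K κ) with hT
  have hle : Submodule.span κ (embV κ '' (S : Set (Fin k → K))) ≤ F := by
    rw [Submodule.span_le]
    rintro _ ⟨x, hx, rfl⟩
    exact hx
  refine le_antisymm hle ?_
  -- the kernel of the projection in `F`
  let F' : Submodule κ (Fin k → κ) := F ⊓ LinearMap.ker T.mulVecLin
  have hF' : F' = ⊥ := by
    by_contra hne
    obtain ⟨a, ha0, ha⟩ := L15.exists_rational F' hne (by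
      intro τ x hx
      refine ⟨hst τ x hx.1, ?_⟩
      have h1 : T.mulVec x = 0 := hx.2
      change T.mulVec (fun i => τ (x i)) = 0
      have h2 : T.map τ = T := by
        ext i j
        exact τ.commutes (Q i j)
      funext i
      have h3 := RingHom.map_mulVec (τ : κ →+* κ) T x i
      rw [h1] at h3
      have h4 : (T.map (τ : κ →+* κ)).mulVec ((τ : κ →+* κ) ∘ x) i = T.mulVec (fun i => τ (x i)) i := by
        have h5 : T.map (τ : κ →+* κ) = T := h2
        rw [h5]
        rfl
      rw [← h4, ← h3]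
      exact map_zero τ)
    have h1 : a ∈ S := ha.1
    have h2 : T.mulVec (embV κ a) = 0 := ha.2
    rw [hT, L15.proj_embV, hQ2 a h1] at h2
    apply ha0
    funext i
    have h3 := congrFun h2 i
    exact (map_eq_zero (algebraMap K κ)).1 h3
  intro x hx
  have h1 : T.mulVec x ∈ Submodule.span κ (embV κ '' (S : Set (Fin k → K))) :=
    L15.proj_mem S Q hQ1 x
  have h2 : x - T.mulVec x ∈ F' := by
    refine ⟨F.sub_mem hx (hle h1), ?_⟩
    change T.mulVec (x - T.mulVec x) = 0
    rw [Matrix.mulVec_sub, L15.proj_fix S Q hQ2 _ h1, sub_self]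
  rw [hF', Submodule.mem_bot, sub_eq_zero] at h2
  rw [h2]
  exact h1

/-- CAN-L16: a vector of `Ω ^ k` in the `κ`-span of a rational subspace is in its `Ω`-span -/
theorem mem_span_of_mem_span {K : Type v} [Field K] {Ω : Type u} [Field Ω] [Algebra K Ω]
    {κ : Type t} [Field κ] [Algebra K κ] (i : Ω →+* κ)
    (hi : ∀ a : K, i (algebraMap K Ω a) = algebraMap K κ a) {k : ℕ} (S : Submodule K (Fin k → K))
    (y : Fin k → Ω)
    (hy : (fun j => i (y j)) ∈ Submodule.span κ (embV κ '' (S : Set (Fin k → K)))) :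
    y ∈ Submodule.span Ω (embV Ω '' (S : Set (Fin k → K))) := by
  obtain ⟨Q, hQ1, hQ2⟩ := L15.exists_proj S
  have h1 := L15.proj_fix S Q hQ2 _ hy
  have h2 : (Q.map (algebraMap K Ω)).mulVec y = y := by
    funext j
    apply i.injective
    have h3 := RingHom.map_mulVec i (Q.map (algebraMap K Ω)) y j
    rw [h3]
    have h4 : (Q.map (algebraMap K Ω)).map i = Q.map (algebraMap K κ) := by
      ext a b
      exact hi (Q a b)
    rw [h4]
    exact congrFun h1 j
  rw [← h2]
  exact L15.proj_mem S Q hQ1 y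

end Pool.Agent.Helper11.Can
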